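import Pool.Agent.Lib.MP_011f3a_lc.LM.I.CoB

/-! # The well-ordered set of length `𝔠⁺ + 1` (module G-OM)

`CofU β`: every countable set of elements below `β` is bounded below `β`. `om2`: `sup` because `𝔠⁺` is a regular cardinal; `clo`: the least fixed point type construction of length `ω₁`: define by recursion on the countable ordinals a strictly increasing sequence `δ_α < 𝔠⁺` with
`F ξ < δ_{α + 1}` for all `ξ < δ_α` (there are at most `𝔠` many `ξ < δ_α`), suprema at limits; `β` is its supremum. Alternatively: enumerate only `ω₁` many steps using `sup` for all earlier values: `δ_α` = a bound for all `F ξ`, `ξ < δ_{α'}`, and `δ_{α'}`, `α' < α`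
(well-founded recursion on `α : (Ordinal.omega 1).ToType`); `β` = the least element `≥` all `δ_α`; a countable set of elements below `β` is below some `δ_α`. -/

namespace Pool.Agent.Lib.MP_011f3a_lc.LM

open Cardinal

/-- every countable set of elements below `β` is bounded below `β` -/
def CofU {Ω : Type} [LinearOrder Ω] (β : Ω) : Prop := ∀ C : Set Ω, C.Countable → (∀ ξ ∈ C, ξ < β) → ∃ δ < β, ∀ ξ ∈ C, ξ < δ

/-- the properties of the length `𝔠⁺` (this is `ω₂` if CH holds) -/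
structure Om2 {Ω : Type} [LinearOrder Ω] (τ : Ω) : Prop where
  ne : ∃ ξ, ξ < τ
  small : ∀ ξ < τ, #{η // η < ξ} ≤ 𝔠
  sup : ∀ (ι : Type) (f : ι → Ω), #ι ≤ 𝔠 → (∀ i, f i < τ) → ∃ δ < τ, ∀ i, f i < δ
  clo : ∀ F : Ω → Ω, (∀ ξ < τ, F ξ < τ) → ∀ δ < τ, ∃ β < τ, δ < β ∧ CofU β ∧ ∀ ξ < β, F ξ < β

private theorem om_cof : Order.cof (Order.succ (𝔠 : Cardinal.{0})).ord.ToType = Order.succ (𝔠 : Cardinal.{0}) := by
  rw [Ordinal.cof_toType]
  exact (Cardinal.isRegular_succ Cardinal.aleph0_le_continuum).cof_ord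

theorem om2_sup {ι : Type} (f : ι → WithTop (Order.succ (𝔠 : Cardinal.{0})).ord.ToType) (h : #ι ≤ 𝔠) (hf : ∀ i, f i < ⊤) :
    ∃ δ < ⊤, ∀ i, f i < δ := by
  have hg : ∀ i, ∃ x : (Order.succ (𝔠 : Cardinal.{0})).ord.ToType, f i = (x : WithTop _) := fun i =>
    (WithTop.ne_top_iff_exists.1 (hf i).ne).imp fun _ h => h.symm
  choose g hg using hg
  have h1 : ¬ IsCofinal (Set.range g) := by
    intro hc
    have h2 := Order.cof_le hc
    rw [om_cof] at h2
    have h3 : #(Set.range g) ≤ 𝔠 := Cardinal.mk_range_le.trans h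
    exact absurd (h2.trans h3) (Order.lt_succ (𝔠 : Cardinal.{0})).not_ge
  rw [not_isCofinal_iff] at h1
  obtain ⟨x, hx⟩ := h1
  exact ⟨x, WithTop.coe_lt_top x, fun i => by rw [hg i]; exact WithTop.coe_lt_coe.2 (hx _ ⟨i, rfl⟩)⟩

theorem om2_small (ξ : WithTop (Order.succ (𝔠 : Cardinal.{0})).ord.ToType) (h : ξ < ⊤) : #{η // η < ξ} ≤ 𝔠 := by
  obtain ⟨x, rfl⟩ := WithTop.ne_top_iff_exists.1 h.ne
  have h1 : #(Set.Iio x) < Order.succ (𝔠 : Cardinal.{0}) := by
    have h2 := Cardinal.mk_Iio_lt x (by simp)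
    simpa using h2
  rw [Order.lt_succ_iff] at h1
  refine le_trans ?_ h1
  have hy : ∀ η : {η : WithTop (Order.succ (𝔠 : Cardinal.{0})).ord.ToType // η < (x : WithTop _)}, ∃ y : Set.Iio x, η.1 = (y.1 : WithTop _) := by
    rintro ⟨η, hη⟩
    obtain ⟨y, rfl⟩ := WithTop.ne_top_iff_exists.1 (hη.trans (WithTop.coe_lt_top x)).ne
    exact ⟨⟨y, WithTop.coe_lt_coe.1 hη⟩, rfl⟩
  choose g hg using hy
  refine Cardinal.mk_le_of_injective (f := g) fun a b hab => Subtype.ext ?_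
  rw [hg a, hg b, hab]

end Pool.Agent.Lib.MP_011f3a_lc.LM

/-! # The well-ordered set of length `𝔠⁺ + 1`, part 2 (module G-OMB)

See the header of G/Om.lean. -/

namespace Pool.Agent.Lib.MP_011f3a_lc.LM

open Cardinal

private theorem omB_step (F : WithTop (Order.succ (𝔠 : Cardinal.{0})).ord.ToType → WithTop (Order.succ (𝔠 : Cardinal.{0})).ord.ToType)
    (hF : ∀ ξ < ⊤, F ξ < ⊤) (δ : WithTop (Order.succ (𝔠 : Cardinal.{0})).ord.ToType) (hδ : δ < ⊤)
    (γ : WithTop (Order.succ (𝔠 : Cardinal.{0})).ord.ToType) (hγ : γ < ⊤) :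
    ∃ ε < ⊤, γ < ε ∧ δ < ε ∧ ∀ ξ < γ, F ξ < ε := by
  obtain ⟨e1, he1, h1⟩ := om2_sup (fun ξ : {η // η < γ} => F ξ) (om2_small γ hγ)
    (fun i => hF i (i.2.trans hγ))
  obtain ⟨e, he, h⟩ := om2_sup (fun i : Fin 3 => if i = 0 then γ else if i = 1 then δ else e1)
    (by
      have : #(Fin 3) ≤ ℵ₀ := Cardinal.mk_le_aleph0
      exact this.trans Cardinal.aleph0_le_continuum)
    (by
      intro i
      split_ifs
      · exact hγ
      · exact hδ
      · exact he1)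
  have a0 := h 0
  have a1 := h 1
  have a2 := h 2
  simp at a0 a1 a2
  exact ⟨e, he, a0, a1, fun ξ hξ => (h1 ⟨ξ, hξ⟩).trans a2⟩

theorem om2_clo (F : WithTop (Order.succ (𝔠 : Cardinal.{0})).ord.ToType → WithTop (Order.succ (𝔠 : Cardinal.{0})).ord.ToType) (hF : ∀ ξ < ⊤, F ξ < ⊤)
    (δ : WithTop (Order.succ (𝔠 : Cardinal.{0})).ord.ToType) (hδ : δ < ⊤) : ∃ β < ⊤, δ < β ∧ CofU β ∧ ∀ ξ < β, F ξ < β := by
  classical
  have hG : ∀ γ : WithTop (Order.succ (𝔠 : Cardinal.{0})).ord.ToType, ∃ ε : WithTop (Order.succ (𝔠 : Cardinal.{0})).ord.ToType,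
      γ < ⊤ → ε < ⊤ ∧ γ < ε ∧ δ < ε ∧ ∀ ξ < γ, F ξ < ε := by
    intro γ
    by_cases hγ : γ < ⊤
    · obtain ⟨ε, h1, h2, h3, h4⟩ := omB_step F hF δ hδ γ hγ
      exact ⟨ε, fun _ => ⟨h1, h2, h3, h4⟩⟩
    · exact ⟨γ, fun h => absurd h hγ⟩
  choose G hG using hG
  -- the index set
  let A : Type := (ℵ₁ : Cardinal.{0}).ord.ToType
  have hA : #A = ℵ₁ := Cardinal.mk_ord_toType _
  have hAlt : ∀ a : A, #{b : A // b < a} < ℵ₁ := fun a => Cardinal.mk_Iio_toType_ord_lt a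
  have hAle : ∀ a : A, #{b : A // b < a} ≤ ℵ₁ := fun a => (hAlt a).le
  -- the recursion
  let g : A → WithTop (Order.succ (𝔠 : Cardinal.{0})).ord.ToType := WellFoundedLT.fix
    (motive := fun _ => WithTop (Order.succ (𝔠 : Cardinal.{0})).ord.ToType) fun a ih =>
      if h : ∃ ε < ⊤, ∀ b : A, ∀ hb : b < a, G (ih b hb) < ε then h.choose else δ
  have hg : ∀ a : A, g a < ⊤ ∧ ∀ b < a, G (g b) < g a := by
    intro a
    induction a using WellFoundedLT.induction with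
    | _ a ih =>
      have hex : ∃ ε < ⊤, ∀ b : A, ∀ _ : b < a, G (g b) < ε := by
        obtain ⟨ε, h1, h2⟩ := om2_sup (fun b : {b : A // b < a} => G (g b)) ((hAle a).trans Cardinal.aleph_one_le_continuum)
          (fun b => (hG (g b) (ih b b.2).1).1)
        exact ⟨ε, h1, fun b hb => h2 ⟨b, hb⟩⟩
      have e : g a = hex.choose := by
        change WellFoundedLT.fix _ a = _
        rw [WellFoundedLT.fix_eq]
        exact dif_pos hex
      rw [e]
      exact ⟨hex.choose_spec.1, fun b hb => hex.choose_spec.2 b hb⟩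
  have hgmono : ∀ a b : A, a < b → g a < g b := fun a b hab =>
    ((hG (g a) (hg a).1).2.1).trans ((hg b).2 a hab)
  -- countable sets are bounded in `A`
  have hIic : ∀ a : A, (Set.Iic a).Countable := by
    intro a
    have h1 : (Set.Iio a).Countable := by
      rw [← Cardinal.le_aleph0_iff_set_countable]
      have := hAlt a
      have h2 : #(Set.Iio a) < Order.succ ℵ₀ := lt_of_lt_of_eq this Cardinal.succ_aleph0.symm
      exact Order.lt_succ_iff.mp h2
    have : Set.Iic a = insert a (Set.Iio a) := by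
      ext b
      simp [le_iff_eq_or_lt]
    rw [this]
    exact h1.insert a
  have hbdd : ∀ C : Set A, C.Countable → ∃ a, ∀ b ∈ C, b < a := by
    intro C hC
    by_contra hcon
    push Not at hcon
    have huniv : (Set.univ : Set A) ⊆ ⋃ b ∈ C, Set.Iic b := by
      intro a _
      obtain ⟨b, hb, hab⟩ := hcon a
      exact Set.mem_biUnion hb hab
    have hc : (Set.univ : Set A).Countable := (hC.biUnion fun b _ => hIic b).mono huniv
    have h1 : #A ≤ ℵ₀ := by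
      have := Cardinal.le_aleph0_iff_set_countable.mpr hc
      rwa [Cardinal.mk_univ] at this
    rw [hA] at h1
    exact absurd h1 (not_le.mpr Cardinal.aleph0_lt_aleph_one)
  -- the supremum
  have hne : ∃ β : WithTop (Order.succ (𝔠 : Cardinal.{0})).ord.ToType, ∀ a, g a < β := by
    obtain ⟨ε, _, h2⟩ := om2_sup g (hA.le.trans Cardinal.aleph_one_le_continuum) (fun a => (hg a).1)
    exact ⟨ε, h2⟩
  obtain ⟨ε, hε, hε2⟩ := om2_sup g (hA.le.trans Cardinal.aleph_one_le_continuum) (fun a => (hg a).1)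
  obtain ⟨β, hβ, hmin⟩ := WellFounded.has_min
    (wellFounded_lt (α := WithTop (Order.succ (𝔠 : Cardinal.{0})).ord.ToType)) {β | ∀ a, g a < β} hne
  have hβtop : β < ⊤ := lt_of_le_of_lt (not_lt.mp (hmin ε hε2)) hε
  have hbelow : ∀ ξ < β, ∃ a, ξ < g a := by
    intro ξ hξ
    have : ¬ ∀ a, g a < ξ := fun h => hmin ξ h hξ
    push Not at this
    obtain ⟨a, ha⟩ := this
    obtain ⟨b, hb⟩ := hbdd {a} (Set.countable_singleton a)
    exact ⟨b, lt_of_le_of_lt ha (hgmono a b (hb a rfl))⟩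
  obtain ⟨a0, _⟩ := hbdd ∅ Set.countable_empty
  obtain ⟨a1, ha1⟩ := hbdd {a0} (Set.countable_singleton a0)
  refine ⟨β, hβtop, ?_, ?_, ?_⟩
  · exact ((hG (g a0) (hg a0).1).2.2.1).trans (((hg a1).2 a0 (ha1 a0 rfl)).trans (hβ a1))
  · intro C hC hCβ
    have : Nonempty A := ⟨a0⟩
    choose! s hs using hbelow
    obtain ⟨a, ha⟩ := hbdd (s '' C) (hC.image s)
    exact ⟨g a, hβ a, fun ξ hξ => (hs ξ (hCβ ξ hξ)).trans (hgmono _ _ (ha _ ⟨ξ, hξ, rfl⟩))⟩
  · intro ξ hξ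
    obtain ⟨a, ha⟩ := hbelow ξ hξ
    obtain ⟨b, hb⟩ := hbdd {a} (Set.countable_singleton a)
    exact ((hG (g a) (hg a).1).2.2.2 ξ ha).trans (((hg b).2 a (hb a rfl)).trans (hβ b))

theorem om2 : Om2 (⊤ : WithTop (Order.succ (𝔠 : Cardinal.{0})).ord.ToType) where
  ne := by
    obtain ⟨δ, h1, _⟩ := om2_sup (fun i : Empty => i.elim) (by
      have : #Empty ≤ ℵ₀ := Cardinal.mk_le_aleph0
      exact this.trans Cardinal.aleph0_le_continuum) (fun i => i.elim)
    exact ⟨δ, h1⟩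
  small := om2_small
  sup := fun _ f h hf => om2_sup f h hf
  clo := om2_clo

theorem Om2.cof {Ω : Type} [LinearOrder Ω] {τ : Ω} (h : Om2 τ) : CofU τ := by
  intro C hC hCτ
  obtain ⟨δ, h1, h2⟩ := h.sup C (fun i => (i : Ω))
    ((Cardinal.le_aleph0_iff_set_countable.mpr hC).trans Cardinal.aleph0_le_continuum)
    (fun i => hCτ i i.2)
  exact ⟨δ, h1, fun ξ hξ => h2 ⟨ξ, hξ⟩⟩

end Pool.Agent.Lib.MP_011f3a_lc.LM

/-! # Hereditarily countable conditions (module G-DEFS)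

`HC md ζ`: all names in `p` are full or given by countable sets of hereditarily countable conditions. `CofU β`: a countable set of conditions of `P_β` is bounded: each of them is `tr β (tr δ c)` for one `δ < β` (the supports are countable). -/

namespace Pool.Agent.Lib.MP_011f3a_lc.LM

variable {Ω : Type} [LinearOrder Ω] [WellFoundedLT Ω] {md : Md} {ζ ξ η : Ω}

variable (md) in
/-- the hereditarily countable conditions -/
noncomputable def HC : ∀ ζ : Ω, Set (Cn Ω md ζ) :=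
  WellFoundedLT.fix (motive := fun ζ => Set (Cn Ω md ζ)) fun ζ ih =>
    {p | ∀ ξ (h : ξ < ζ), p.co ξ = full _ _ ∨ ∀ s, (p.co ξ s).Countable ∧ p.co ξ s ⊆ ih ξ h}

theorem mem_HC {p : Cn Ω md ζ} : p ∈ HC md ζ ↔ ∀ ξ < ζ, p.co ξ = full _ _ ∨ ∀ s, (p.co ξ s).Countable ∧ p.co ξ s ⊆ HC md ξ := by
  have h : HC md ζ = {p : Cn Ω md ζ | ∀ ξ (_ : ξ < ζ), p.co ξ = full _ _ ∨ ∀ s, (p.co ξ s).Countable ∧ p.co ξ s ⊆ HC md ξ} :=
    WellFoundedLT.fix_eq (motive := fun ζ => Set (Cn Ω md ζ)) _ ζ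
  rw [h]
  exact Iff.rfl

theorem tr_HC {p : Cn Ω md ζ} (h : p ∈ HC md ζ) (ξ : Ω) : tr ξ p ∈ HC md ξ := by
  refine mem_HC.2 fun η hη => ?_
  rw [co_tr _ hη]
  rcases lt_or_ge η ζ with h1 | h1
  · exact mem_HC.1 h η h1
  · exact Or.inl (p.co_of_le h1)

/-- `c` has length `δ` -/
def Bd (δ : Ω) (c : Cn Ω md ζ) : Prop := tr ζ (tr δ c) = c

theorem bd_iff {δ : Ω} {c : Cn Ω md ζ} : Bd δ c ↔ ∀ ξ ∈ c.supp, ξ < δ := by
  constructor
  · intro h ξ hξ
    by_contra hδ
    apply hξ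
    have h1 : ξ < ζ := c.supp_lt ξ hξ
    have h2 : tr ζ (tr δ c) = c := h
    rw [← h2, co_tr _ h1]
    exact Cn.co_of_le _ (not_lt.1 hδ)
  · intro h
    exact tr_tr_of_supp h

theorem Bd.mono {δ δ' : Ω} {c : Cn Ω md ζ} (h : Bd δ c) (hδ : δ ≤ δ') : Bd δ' c :=
  bd_iff.2 fun ξ hξ => lt_of_lt_of_le (bd_iff.1 h ξ hξ) hδ

theorem exists_bd (h : CofU ζ) (C : Set (Cn Ω md ζ)) (hC : C.Countable) : ∃ δ < ζ, ∀ c ∈ C, Bd δ c := by
  obtain ⟨δ, hδ, hδ'⟩ := h (⋃ c ∈ C, c.supp) (hC.biUnion fun c _ => c.supp_countable) (by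
    intro ξ hξ
    obtain ⟨c, _, hc⟩ := Set.mem_iUnion₂.1 hξ
    exact c.supp_lt ξ hc)
  exact ⟨δ, hδ, fun c hc => bd_iff.2 fun ξ hξ => hδ' ξ (Set.mem_biUnion hc hξ)⟩

/-- a bounded set of conditions of `P_ζ` and the filter restricted to `δ` -/
theorem mt_bd {δ : Ω} (hδ : δ ≤ ζ) {C : Set (Cn Ω md ζ)} (hC : ∀ c ∈ C, Bd δ c) (G : Flt (Cn Ω md ζ)) :
    mt C G ↔ mt {d | ∃ c ∈ C, d = tr δ c} (rs δ G) := by
  constructor
  · rintro ⟨c, hc, hG⟩
    exact ⟨tr δ c, ⟨c, hc, rfl⟩, tr_mem_rs hG δ⟩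
  · rintro ⟨d, ⟨c, hc, rfl⟩, hG⟩
    refine ⟨c, hc, ?_⟩
    have h1 := (mem_rs hδ).1 hG
    have h2 : tr ζ (tr δ c) = c := hC c hc
    rwa [h2] at h1

end Pool.Agent.Lib.MP_011f3a_lc.LM

/-! # Counting hereditarily countable conditions (module G-CARD)

`𝔠 ^ ℵ₀ = 𝔠` (`Cardinal.mk_set_le`, `continuum_power_aleph0`, …). `count_sets`: the countable subsets of a set of at most `𝔠` elements are at most `𝔠` many (ranges of functions `ℕ → X`, and `∅`). `card_HC`: strong induction on `ξ`: `p ∈ HC` is determined by the countable set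
`{(η, N) | η ∈ p.supp, N = p.co η}` of pairs, where `N : List ℕ → {countable subsets of HC md η}`; these are at most `𝔠 * (𝔠 ^ ℵ₀) ^ ℵ₀ = 𝔠` pairs. -/

namespace Pool.Agent.Lib.MP_011f3a_lc.LM

open Cardinal

variable {Ω : Type} [LinearOrder Ω] [WellFoundedLT Ω] {md : Md} {ζ ξ η τ : Ω}

theorem aleph_pow : (𝔠 : Cardinal.{0}) ^ (ℵ₀ : Cardinal.{0}) = 𝔠 := continuum_power_aleph0

/-- the countable subsets of `X` -/
def CS {Y : Type} (X : Set Y) : Set (Set Y) := {C | C.Countable ∧ C ⊆ X}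

theorem card_CS {Y : Type} (X : Set Y) (hX : #X ≤ 𝔠) : #(CS X) ≤ 𝔠 := by
  have h1 : #(ℕ → Option X) ≤ 𝔠 := by
    rw [mk_pi, prod_const, lift_uzero, lift_uzero, mk_option, mk_nat]
    refine le_of_le_of_eq (power_le_power_right ?_) (aleph_pow)
    exact add_le_of_le (aleph0_le_continuum) hX (one_le_aleph0.trans (aleph0_le_continuum))
  refine le_trans ?_ h1
  have h2 : ∀ C : CS X, ∃ f : ℕ → Option X, C.1 = {y | ∃ n, ∃ x, f n = some x ∧ x.1 = y} := by
    rintro ⟨C, hC, hs⟩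
    rcases C.eq_empty_or_nonempty with h0 | hne
    · refine ⟨fun _ => none, ?_⟩
      subst h0
      ext y
      simp
    · obtain ⟨f, hf⟩ := hC.exists_eq_range hne
      refine ⟨fun n => some ⟨f n, hs (by rw [hf]; exact ⟨n, rfl⟩)⟩, ?_⟩
      ext y
      show y ∈ C ↔ _
      constructor
      · intro hy
        rw [hf] at hy
        obtain ⟨n, hn⟩ := hy
        exact ⟨n, _, rfl, hn⟩
      · rintro ⟨n, x, hx, hy⟩
        rw [← hy, ← Option.some.inj hx]
        have h3 : f n ∈ Set.range f := ⟨n, rfl⟩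
        rw [← hf] at h3
        exact h3
  choose g hg using h2
  refine mk_le_of_injective (f := g) fun a b hab => Subtype.ext ?_
  rw [hg a, hg b, hab]

/-- functions from a countable set into a set of at most `𝔠` elements -/
theorem card_fun {Y Z : Type} [Countable Z] (X : Set Y) (hX : #X ≤ 𝔠) : #{f : Z → Y // ∀ z, f z ∈ X} ≤ 𝔠 := by
  have h1 : #(Z → X) ≤ 𝔠 := by
    rw [mk_pi, prod_const, lift_uzero, lift_uzero]
    refine (power_le_power_right hX).trans ?_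
    refine le_of_le_of_eq (power_le_power_left (continuum_pos).ne' (mk_le_aleph0 (α := Z))) (aleph_pow)
  refine le_trans (mk_le_of_injective (f := fun f : {f : Z → Y // ∀ z, f z ∈ X} => fun z => (⟨f.1 z, f.2 z⟩ : X)) ?_) h1
  intro a b hab
  refine Subtype.ext (funext fun z => ?_)
  have := congrFun hab z
  exact congrArg Subtype.val this

theorem card_HC (h : Om2 τ) (hξ : ξ < τ) : #(HC md ξ) ≤ 𝔠 := by
  induction ξ using WellFoundedLT.induction with
  | ind ξ ih =>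
    let S : Set (Σ η : {η : Ω // η < ξ}, List ℕ → Set (Cn Ω md η.1)) := {x | ∀ s, x.2 s ∈ CS (HC md x.1.1)}
    have hS : #S ≤ 𝔠 := by
      have h1 : #(Σ η : {η : Ω // η < ξ}, {N : List ℕ → Set (Cn Ω md η.1) // ∀ s, N s ∈ CS (HC md η.1)}) ≤ 𝔠 := by
        rw [mk_sigma]
        refine (sum_le_sum _ (fun _ => 𝔠) fun η => ?_).trans ?_
        · exact card_fun _ (card_CS _ (ih η.1 η.2 (η.2.trans hξ)))
        · rw [sum_const']
          refine (mul_le_mul_left (h.small ξ hξ) _).trans ?_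
          rw [mul_eq_self (aleph0_le_continuum)]
      refine le_trans (mk_le_of_injective (f := fun x : S => (⟨x.1.1, x.1.2, x.2⟩ :
        Σ η : {η : Ω // η < ξ}, {N : List ℕ → Set (Cn Ω md η.1) // ∀ s, N s ∈ CS (HC md η.1)})) ?_) h1
      rintro ⟨⟨a, N⟩, ha⟩ ⟨⟨b, M⟩, hb⟩ hab
      simp only [Sigma.mk.injEq] at hab
      obtain ⟨rfl, h2⟩ := hab
      have h3 := congrArg Subtype.val (eq_of_heq h2)
      simp only at h3
      subst h3
      rfl
    have hm : ∀ p ∈ HC md ξ, {x : Σ η : {η : Ω // η < ξ}, List ℕ → Set (Cn Ω md η.1) |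
        x.1.1 ∈ p.supp ∧ x.2 = p.co x.1.1} ∈ CS S := by
      intro p hp
      constructor
      · have h1 : (Set.range fun η : p.supp => (⟨⟨η.1, p.supp_lt η.1 η.2⟩, p.co η.1⟩ :
            Σ η : {η : Ω // η < ξ}, List ℕ → Set (Cn Ω md η.1))).Countable := by
          have := p.supp_countable.to_subtype
          exact Set.countable_range _
        refine h1.mono ?_
        rintro ⟨⟨η, hη⟩, N⟩ ⟨h2, h3⟩
        refine ⟨⟨η, h2⟩, ?_⟩
        simp only at h3
        subst h3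
        rfl
      · rintro ⟨⟨η, hη⟩, N⟩ ⟨h2, h3⟩ s
        simp only at h3
        subst h3
        rcases mem_HC.1 hp η hη with h4 | h4
        · exact absurd h4 h2
        · exact h4 s
    refine le_trans (mk_le_of_injective (f := fun p : HC md ξ => (⟨_, hm p.1 p.2⟩ : CS S)) ?_) (card_CS S hS)
    intro p q hpq
    have h1 := congrArg Subtype.val hpq
    simp only at h1
    have h2 : ∀ η (hη : η < ξ), η ∈ p.1.supp → q.1.co η = p.1.co η := fun η hη hs => by
      have h3 : (⟨⟨η, hη⟩, p.1.co η⟩ : Σ η : {η : Ω // η < ξ}, List ℕ → Set (Cn Ω md η.1)) ∈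
          {x : Σ η : {η : Ω // η < ξ}, List ℕ → Set (Cn Ω md η.1) | x.1.1 ∈ q.1.supp ∧ x.2 = q.1.co x.1.1} := by
        rw [← h1]
        exact ⟨hs, rfl⟩
      exact h3.2.symm
    have h2' : ∀ η (hη : η < ξ), η ∈ q.1.supp → p.1.co η = q.1.co η := fun η hη hs => by
      have h3 : (⟨⟨η, hη⟩, q.1.co η⟩ : Σ η : {η : Ω // η < ξ}, List ℕ → Set (Cn Ω md η.1)) ∈
          {x : Σ η : {η : Ω // η < ξ}, List ℕ → Set (Cn Ω md η.1) | x.1.1 ∈ p.1.supp ∧ x.2 = p.1.co x.1.1} := by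
        rw [h1]
        exact ⟨hs, rfl⟩
      exact h3.2.symm
    refine Subtype.ext (Cn.ext fun η hη => ?_)
    by_cases hp : η ∈ p.1.supp
    · exact (h2 η hη hp).symm
    · by_cases hq : η ∈ q.1.supp
      · exact h2' η hη hq
      · rw [Classical.not_not.1 hp, Classical.not_not.1 hq]

end Pool.Agent.Lib.MP_011f3a_lc.LM
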