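import Pool.Agent.Lib.MP_011f3a_lc.LM.D.Loc
import Pool.Agent.Lib.MP_011f3a_lc.LM.G.OmB

/-! # The hereditarily countable conditions are dense (module G-DENSE)

Strong induction on `ζ`. `EvK m T s`: some node of `T` of index of weight `< m` extends `s`. `exists_book` with `R n k p p'`: for all `ξ ∈ p.supp` and all `s` the condition `tr ξ p'` captures the set of the `c ∈ HC md ξ` which decide `EvK (k ξ) (p(ξ)) s` (`step_cap`: `cw_all ζ k` for the
countably many sets `{q | tr ξ q ≤ some such c}` (open), `Cap.proj`; dense by the induction hypothesis). So below `r (l + 1)` countable sets `C l ξ s ⊆ HC md ξ` are predense. Let `q` have the values `N ξ s = ⋃ l, {c ∈ C l ξ s | FA c (EvK …)}` if `ξ` belongs to the support of some `r l`, and `full`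
otherwise. By `FusH.mem_iff` it is forced by every condition which is below all `tr ξ (r l)` that `ev (N ξ) G = ⋂ l, ev ((r l).co ξ) G` (`fus_name`). So (induction on the coordinates) `tr ξ q ≤ tr ξ (r l)` for all `l`, and `q` is a condition (`exists_mk`). -/

namespace Pool.Agent.Lib.MP_011f3a_lc.LM

variable {Ω : Type} [LinearOrder Ω] [WellFoundedLT Ω] {md : Md} {ζ ξ η : Ω}

/-- some node of small index extends `s` -/
def EvK (m : ℕ) (T : Set (List ℕ)) (s : List ℕ) : Prop := ∃ r a, wt r < m ∧ Kp T r a ∧ s <+: a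

theorem bpr_EvK {P : Type} [Preorder P] {T : Flt P → Set (List ℕ)} (h : BT T) (m : ℕ) (s : List ℕ) :
    BPr fun G => EvK m (T G) s :=
  BPr.exists fun r => BPr.exists fun a => (BPr.const _).and ((bt_kp h r a).and (BPr.const _))

/-- the hereditarily countable conditions which decide the event -/
def DecK (m : ℕ) (p : Cn Ω md ζ) (ξ : Ω) (s : List ℕ) : Set (Cn Ω md ξ) :=
  {c | c ∈ HC md ξ ∧ ((FA c fun G => EvK m (ev (p.co ξ) G) s) ∨ FA c fun G => ¬ EvK m (ev (p.co ξ) G) s)}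

theorem step_cap (hi : ∀ ξ < ζ, ∀ w : Cn Ω md ξ, ∃ v ≤ w, v ∈ HC md ξ) (k : Ω →₀ ℕ) (p : Cn Ω md ζ) :
    ∃ p', PLe k p' p ∧ ∀ ξ ∈ p.supp, ∀ s, Cap (tr ξ p') (DecK (k ξ) p ξ s) := by
  have : Countable p.supp := p.supp_countable.to_subtype
  let _ : Encodable (p.supp × List ℕ) := Encodable.ofCountable _
  let D1 : p.supp × List ℕ → Set (Cn Ω md ζ) := fun x =>
    {q | ∃ c ∈ DecK (k x.1.1) p x.1.1 x.2, tr x.1.1 q ≤ c}
  have hO1 : ∀ x, Opn (D1 x) := by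
    rintro x q ⟨c, hc, hq⟩ q' hq'
    exact ⟨c, hc, (tr_mono hq' _).trans hq⟩
  have hd1 : ∀ x, DnsB (D1 x) p := by
    rintro ⟨⟨ξ, hξ⟩, s⟩ q hq
    have hlt : ξ < ζ := p.supp_lt ξ hξ
    obtain ⟨v, hv, hdec⟩ := bpr_EvK (bt_ev (p.co ξ)) (k ξ) s (tr ξ q)
    obtain ⟨u, hu, huH⟩ := hi ξ hlt v
    obtain ⟨r, hr1, hr2, hr3, hr4⟩ := exists_join hlt.le q u (hu.trans hv)
    refine ⟨r, hr3, u, ⟨huH, ?_⟩, hr1.le⟩
    rcases hdec with hdec | hdec
    · exact Or.inl (hdec.mono hu)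
    · exact Or.inr (hdec.mono hu)
  let D : ℕ → Set (Cn Ω md ζ) := fun n => match (Encodable.decode n : Option (p.supp × List ℕ)) with
    | some x => D1 x
    | none => Set.univ
  have hO : ∀ n, Opn (D n) := by
    intro n
    change Opn (match (Encodable.decode n : Option (p.supp × List ℕ)) with
      | some x => D1 x
      | none => Set.univ)
    cases (Encodable.decode n : Option (p.supp × List ℕ)) with
    | none => exact fun _ _ _ _ => Set.mem_univ _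
    | some x => exact hO1 x
  have hd : ∀ n, DnsB (D n) p := by
    intro n
    change DnsB (match (Encodable.decode n : Option (p.supp × List ℕ)) with
      | some x => D1 x
      | none => Set.univ) p
    cases (Encodable.decode n : Option (p.supp × List ℕ)) with
    | none => exact fun q _ => ⟨q, le_rfl, Set.mem_univ _⟩
    | some x => exact hd1 x
  obtain ⟨p', hp', hcap⟩ := cw_all ζ k p D hO hd
  refine ⟨p', hp', fun ξ hξ s => ?_⟩
  have hlt : ξ < ζ := p.supp_lt ξ hξ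
  have h1 : Cap p' (D1 ⟨⟨ξ, hξ⟩, s⟩) := by
    have := hcap (Encodable.encode (⟨⟨ξ, hξ⟩, s⟩ : p.supp × List ℕ))
    have e : D (Encodable.encode (⟨⟨ξ, hξ⟩, s⟩ : p.supp × List ℕ)) = D1 ⟨⟨ξ, hξ⟩, s⟩ := by
      change (match (Encodable.decode (Encodable.encode (⟨⟨ξ, hξ⟩, s⟩ : p.supp × List ℕ)) :
        Option (p.supp × List ℕ)) with
        | some x => D1 x
        | none => Set.univ) = _
      rw [Encodable.encodek]
    rwa [e] at this
  have h2 : Cap (tr ξ p') {c' | ∃ c ∈ DecK (k ξ) p ξ s, c' ≤ c} := Cap.proj hlt.le h1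
  obtain ⟨E, hE1, hE2, hE3⟩ := h2
  have hE2' : ∀ e ∈ E, ∃ c ∈ DecK (k ξ) p ξ s, e ≤ c := fun e he => hE2 he
  have : Nonempty (Cn Ω md ξ) := ⟨tr ξ p⟩
  choose! g hg1 hg2 using hE2'
  refine ⟨g '' E, hE1.image g, ?_, fun q hq => ?_⟩
  · rintro _ ⟨e, he, rfl⟩
    exact hg1 e he
  · obtain ⟨r, hr, c, hc, hrc⟩ := hE3 q hq
    exact ⟨r, hr, g c, ⟨c, hc, rfl⟩, hrc.trans (hg2 c hc)⟩

theorem fus_name (r : ℕ → Cn Ω md ζ) (k : ℕ → Ω →₀ ℕ) (hr : ∀ l, PLe (k l) (r (l + 1)) (r l)) (hn : ∀ l, NR (r l))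
    (hk : ∀ l ξ, k l ξ ≤ k (l + 1) ξ) (hξ : ξ < ζ) (hu : ∀ m, ∃ l', m ≤ k l' ξ) (C : ℕ → List ℕ → Set (Cn Ω md ξ))
    (hCd : ∀ l s, C l s ⊆ DecK (k l ξ) (r l) ξ s) (hCp : ∀ l s, ∀ q ≤ tr ξ (r (l + 1)), ∃ v ≤ q, ∃ c ∈ C l s, v ≤ c)
    (hCc : ∀ l s, (C l s).Countable) (w : Cn Ω md ξ) (hw : ∀ l, w ≤ tr ξ (r l)) :
    FA w fun G => ev (fun s => {c | ∃ l, c ∈ C l s ∧ FA c fun G => EvK (k l ξ) (ev ((r l).co ξ) G) s}) G =
      ⋂ l, ev ((r l).co ξ) G := by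
  have hF : FA w fun G => FusH md (fun l => ev ((r l).co ξ) G) (fun l => k l ξ) := by
    have h1 : FA w fun G => ∀ l, TC md (ev ((r l).co ξ) G) :=
      FA.all fun l => ((r l).good ξ).mono (hw l)
    have h2 : FA w fun G => ∀ l, Nm (ev ((r l).co ξ) G) :=
      FA.all fun l => (hn l ξ hξ).mono (hw l)
    have h3 : FA w fun G => ∀ l, TLe (k l ξ) (ev ((r (l + 1)).co ξ) G) (ev ((r l).co ξ) G) :=
      FA.all fun l => (hr l ξ hξ).mono (hw (l + 1))
    exact ((h1.and h2).and h3).imp fun G _ h => ⟨h.1.1, h.1.2, h.2, fun l => hk l ξ, hu⟩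
  have hM : FA w fun G => ∀ l s, mt (C l s) G :=
    FA.all fun l => FA.all fun s => FA_mt_frc fun w' hw' => hCp l s w' (hw'.trans (hw (l + 1)))
  have hP : FA w fun G => ∀ l s, ∀ c : C l s, c.1 ∈ G.car →
      ((FA c.1 fun G => EvK (k l ξ) (ev ((r l).co ξ) G) s) → EvK (k l ξ) (ev ((r l).co ξ) G) s) := by
    refine FA.all fun l => FA.all fun s => ?_
    have : Countable (C l s) := (hCc l s).to_subtype
    refine FA.all fun c => ?_
    by_cases h : FA c.1 fun G => EvK (k l ξ) (ev ((r l).co ξ) G) s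
    · exact (h.cond w).imp fun G _ hG hc _ => hG hc
    · exact FA.of_forall fun G _ _ h' => absurd h' h
  have hN : FA w fun G => ∀ l s, ∀ c : C l s, c.1 ∈ G.car →
      ((FA c.1 fun G => ¬ EvK (k l ξ) (ev ((r l).co ξ) G) s) → ¬ EvK (k l ξ) (ev ((r l).co ξ) G) s) := by
    refine FA.all fun l => FA.all fun s => ?_
    have : Countable (C l s) := (hCc l s).to_subtype
    refine FA.all fun c => ?_
    by_cases h : FA c.1 fun G => ¬ EvK (k l ξ) (ev ((r l).co ξ) G) s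
    · exact (h.cond w).imp fun G _ hG hc _ => hG hc
    · exact FA.of_forall fun G _ _ h' => absurd h' h
  refine (((hF.and hM).and hP).and hN).imp fun G _ h => ?_
  obtain ⟨⟨⟨hF, hM⟩, hP⟩, hN⟩ := h
  ext s
  rw [hF.mem_iff]
  constructor
  · rintro ⟨c, ⟨l, hc, hE⟩, hcG⟩
    obtain ⟨r', a, h1, h2, h3⟩ := hP l s ⟨c, hc⟩ hcG hE
    exact ⟨l, r', a, h1, h2, h3⟩
  · rintro ⟨l, r', a, h1, h2, h3⟩
    obtain ⟨c, hc, hcG⟩ := hM l s
    rcases (hCd l s hc).2 with hE | hE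
    · exact ⟨c, ⟨l, hc, hE⟩, hcG⟩
    · exact absurd ⟨r', a, h1, h2, h3⟩ (hN l s ⟨c, hc⟩ hcG hE)

end Pool.Agent.Lib.MP_011f3a_lc.LM

/-! # The hereditarily countable conditions are dense, part 2 (module G-DENSEB)

See the header of G/Dense.lean. -/

namespace Pool.Agent.Lib.MP_011f3a_lc.LM

variable {Ω : Type} [LinearOrder Ω] [WellFoundedLT Ω] {md : Md} {ζ ξ η : Ω}

/-- a coordinate with the full name: the event is decided by the weakest condition -/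
private theorem cap_of_full {p : Cn Ω md ζ} (h : p.co ξ = full _ _) (m : ℕ) (s : List ℕ) (w : Cn Ω md ξ) :
    Cap w (DecK m p ξ s) := by
  obtain ⟨o, ho, ho'⟩ := exists_top (md := md) ξ
  refine ⟨{o}, Set.countable_singleton o, ?_, fun q _ => ⟨q, le_rfl, o, rfl, ho' q⟩⟩
  rintro c rfl
  refine ⟨mem_HC.2 fun η _ => Or.inl (ho η), ?_⟩
  by_cases he : EvK m Set.univ s
  · left
    refine FA.of_forall fun G _ => ?_
    rw [h, ev_full G]
    exact he
  · right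
    refine FA.of_forall fun G _ => ?_
    rw [h, ev_full G]
    exact he

private theorem hc_le {N : ∀ ξ : Ω, List ℕ → Set (Cn Ω md ξ)} {r : ℕ → Cn Ω md ζ}
    (hN : ∀ ξ < ζ, ∀ w : Cn Ω md ξ, (∀ l, w ≤ tr ξ (r l)) → FA w fun G => ev (N ξ) G = ⋂ l, ev ((r l).co ξ) G) :
    ∀ ξ ≤ ζ, ∀ w : Cn Ω md ξ, (∀ η < ξ, w.co η = N η) → ∀ l, w ≤ tr ξ (r l) := by
  intro ξ
  induction ξ using WellFoundedLT.induction with
  | ind ξ ih =>
    intro hξ w hw l
    refine Cn.le_iff.2 fun η hη => ?_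
    rw [hw η hη, co_tr _ hη]
    have h1 : ∀ l, tr η w ≤ tr η (r l) := ih η hη (hη.le.trans hξ) (tr η w) fun θ hθ => by
      rw [co_tr _ hθ]
      exact hw θ (hθ.trans hη)
    refine (hN η (hη.trans_le hξ) (tr η w) h1).imp fun G _ hG => ?_
    rw [hG]
    exact Set.iInter_subset _ l

theorem hc_step (hi : ∀ ξ < ζ, ∀ w : Cn Ω md ξ, ∃ v ≤ w, v ∈ HC md ξ) (p : Cn Ω md ζ) : ∃ q ≤ p, q ∈ HC md ζ ∧ NR q := by
  classical
  obtain ⟨r, κ, hr0, -, hr, hn, hk, hu, hR⟩ := exists_book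
    (fun _ (k : Ω →₀ ℕ) (p p' : Cn Ω md ζ) => ∀ ξ ∈ p.supp, ∀ s, Cap (tr ξ p') (DecK (k ξ) p ξ s)) (by
      intro n k p _
      obtain ⟨p1, h1, h2⟩ := step_cap hi k p
      obtain ⟨p', h3, h4, -, -⟩ := exists_norm p1
      exact ⟨p', (h3 k).trans h1, h4, fun ξ hξ s => (h2 ξ hξ s).mono (tr_mono (h3 k).le ξ)⟩) 0 p
  have hcap : ∀ (l : ℕ) (ξ : Ω) (s : List ℕ), Cap (tr ξ (r (l + 1))) (DecK (κ l ξ) (r l) ξ s) := by
    intro l ξ s
    by_cases h : ξ ∈ (r l).supp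
    · exact hR l ξ h s
    · exact cap_of_full (by by_contra h'; exact h h') _ _ _
  choose C hCc hCd hCp using hcap
  let N : ∀ ξ : Ω, List ℕ → Set (Cn Ω md ξ) := fun ξ => if ∃ l, ξ ∈ (r l).supp then
    (fun s => {c | ∃ l, c ∈ C l ξ s ∧ FA c fun G => EvK (κ l ξ) (ev ((r l).co ξ) G) s}) else full _ _
  have hNpos : ∀ {ξ : Ω}, (∃ l, ξ ∈ (r l).supp) → N ξ =
      fun s => {c | ∃ l, c ∈ C l ξ s ∧ FA c fun G => EvK (κ l ξ) (ev ((r l).co ξ) G) s} := fun h => if_pos h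
  have hNneg : ∀ {ξ : Ω}, (¬ ∃ l, ξ ∈ (r l).supp) → N ξ = full _ _ := fun h => if_neg h
  have hneg : ∀ {ξ : Ω}, (¬ ∃ l, ξ ∈ (r l).supp) → ∀ (G : Flt (Cn Ω md ξ)) (l : ℕ), ev ((r l).co ξ) G = Set.univ := by
    intro ξ hs G l
    have h1 : (r l).co ξ = full _ _ := by
      by_contra h
      exact hs ⟨l, h⟩
    rw [h1]
    exact ev_full G
  have hN : ∀ ξ < ζ, ∀ w : Cn Ω md ξ, (∀ l, w ≤ tr ξ (r l)) →
      FA w fun G => ev (N ξ) G = ⋂ l, ev ((r l).co ξ) G := by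
    intro ξ hξ w hw
    by_cases hs : ∃ l, ξ ∈ (r l).supp
    · rw [hNpos hs]
      obtain ⟨l₀, hl₀⟩ := hs
      exact fus_name r κ hr hn hk hξ (hu l₀ ξ hl₀) (fun l s => C l ξ s) (fun l s => hCd l ξ s)
        (fun l s => hCp l ξ s) (fun l s => hCc l ξ s) w hw
    · rw [hNneg hs]
      refine FA.of_forall fun G _ => ?_
      rw [ev_full G]
      simp only [hneg hs G, Set.iInter_univ]
  have hle := hc_le hN
  have hmain : ∀ ξ < ζ, ∀ w : Cn Ω md ξ, (∀ η < ξ, w.co η = N η) →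
      FA w fun G => TC md (ev (N ξ) G) ∧ Nm (ev (N ξ) G) := by
    intro ξ hξ w hw
    have hw' := hle ξ hξ.le w hw
    by_cases hs : ∃ l, ξ ∈ (r l).supp
    · obtain ⟨l₀, hl₀⟩ := hs
      have h1 : FA w fun G => ∀ l, TC md (ev ((r l).co ξ) G) :=
        FA.all fun l => ((r l).good ξ).mono (hw' l)
      have h2 : FA w fun G => ∀ l, Nm (ev ((r l).co ξ) G) :=
        FA.all fun l => (hn l ξ hξ).mono (hw' l)
      have h3 : FA w fun G => ∀ l, TLe (κ l ξ) (ev ((r (l + 1)).co ξ) G) (ev ((r l).co ξ) G) :=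
        FA.all fun l => (hr l ξ hξ).mono (hw' (l + 1))
      refine ((h1.and h2).and h3).imp₂ (hN ξ hξ w hw') fun G _ hG hE => ?_
      have hF : FusH md (fun l => ev ((r l).co ξ) G) (fun l => κ l ξ) :=
        ⟨hG.1.1, hG.1.2, hG.2, fun l => hk l ξ, hu l₀ ξ hl₀⟩
      rw [hE]
      exact ⟨hF.tc_inter, hF.nm_inter⟩
    · refine FA.of_forall fun G _ => ?_
      rw [hNneg hs, ev_full G]
      exact ⟨TC.univ, Nm.univ⟩
  have hc : {ξ | ξ < ζ ∧ N ξ ≠ full _ _}.Countable := by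
    refine (Set.countable_iUnion fun l => (r l).supp_countable).mono ?_
    rintro ξ ⟨_, hξ⟩
    by_contra hs
    exact hξ (hNneg fun ⟨l, hl⟩ => hs (Set.mem_iUnion.2 ⟨l, hl⟩))
  obtain ⟨q, hq⟩ := exists_mk N hc fun ξ hξ w hw => (hmain ξ hξ w hw).imp fun G _ h => h.1
  have hqr : ∀ l, q ≤ r l := fun l => by
    have h := hle ζ le_rfl q hq l
    rwa [tr_self] at h
  refine ⟨q, (hqr 0).trans hr0.le, mem_HC.2 fun ξ hξ => ?_, fun ξ hξ => ?_⟩
  · rw [hq ξ hξ]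
    by_cases hs : ∃ l, ξ ∈ (r l).supp
    · right
      intro s
      rw [hNpos hs]
      refine ⟨(Set.countable_iUnion fun l => hCc l ξ s).mono ?_, ?_⟩
      · rintro c ⟨l, hl, -⟩
        exact Set.mem_iUnion.2 ⟨l, hl⟩
      · rintro c ⟨l, hl, -⟩
        exact (hCd l ξ s hl).1
    · left
      exact hNneg hs
  · rw [hq ξ hξ]
    refine (hmain ξ hξ (tr ξ q) fun η hη => ?_).imp fun G _ h => h.2
    rw [co_tr _ hη]
    exact hq η (hη.trans hξ)

theorem hc_dense (p : Cn Ω md ζ) : ∃ q ≤ p, q ∈ HC md ζ ∧ NR q := by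
  induction ζ using WellFoundedLT.induction with
  | ind ζ ih =>
    exact hc_step (fun ξ hξ w => by
      obtain ⟨v, hv, hv', -⟩ := ih ξ hξ w
      exact ⟨v, hv, hv'⟩) p

end Pool.Agent.Lib.MP_011f3a_lc.LM

/-! # Few names of reals (module G-NAMES)

`NmC md ε ι`: the names of subsets of `ι` given by countable sets of hereditarily countable conditions of `P_ε`. `exists_nmC`: capture (`cw_all ε 0`) the sets of the `c` which decide `n ∈ y G` and are below an element of `HC` deciding it... precisely: the open dense sets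
`{c | ∃ d ∈ HC, c ≤ d ∧ d decides n ∈ y}`; so some `v ≤ w` has for all `n` a countable set `C n ⊆ HC` of deciding conditions, predense below `v`; `a n = {c ∈ C n | FA c (n ∈ y G)}`. -/

namespace Pool.Agent.Lib.MP_011f3a_lc.LM

open Cardinal

variable {Ω : Type} [LinearOrder Ω] [WellFoundedLT Ω] {md : Md} {ζ ξ η τ ε : Ω}

variable (md) in
/-- names given by countable sets of hereditarily countable conditions -/
def NmC (ε : Ω) (ι : Type) : Set (ι → Set (Cn Ω md ε)) := {a | ∀ n, (a n).Countable ∧ a n ⊆ HC md ε}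

theorem card_NmC (h : Om2 τ) (hε : ε < τ) (ι : Type) [Countable ι] : #(NmC md ε ι) ≤ 𝔠 :=
  card_fun (CS (HC md ε)) (card_CS _ (card_HC h hε))

private theorem names_iff {Ψ : Flt (Cn Ω md ε) → Prop} (C : Set (Cn Ω md ε))
    (hC : ∀ c ∈ C, FA c Ψ ∨ FA c fun G => ¬ Ψ G) (q : Cn Ω md ε) (hp : ∀ w ≤ q, ∃ r ≤ w, ∃ c ∈ C, r ≤ c) :
    FA q fun G => Ψ G ↔ mt {c | c ∈ C ∧ FA c Ψ} G := by
  refine FA_local fun w hw => ?_
  obtain ⟨r, h1, c, h2, h3⟩ := hp w hw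
  refine ⟨r, h1, ?_⟩
  rcases hC c h2 with h4 | h4
  · exact (h4.mono h3).imp fun G hG h5 => ⟨fun _ => ⟨c, ⟨h2, h4⟩, G.up r hG c h3⟩, fun _ => h5⟩
  · refine (h4.mono h3).imp fun G hG h5 => ⟨fun h => absurd h h5, fun h => ?_⟩
    obtain ⟨c', ⟨h6, h7⟩, h8⟩ := h
    obtain ⟨u, -, h9, h10⟩ := G.dir c' h8 r hG
    exact absurd ((h7.mono h9).imp₂ (h4.mono (h10.trans h3)) fun _ _ h h' => h' h) FA.not_false

theorem exists_nmC {ι : Type} [Countable ι] {y : Flt (Cn Ω md ε) → Set ι} (hy : ∀ n, BPr fun G => n ∈ y G) (w : Cn Ω md ε) :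
    ∃ v ≤ w, ∃ a ∈ NmC md ε ι, FA v fun G => y G = ev a G := by
  rcases isEmpty_or_nonempty ι with hι | hι
  · exact ⟨w, le_rfl, fun _ => ∅, fun n => (hι.false n).elim, FA.of_forall fun G _ => Set.ext fun n => (hι.false n).elim⟩
  obtain ⟨e, he⟩ := exists_surjective_nat ι
  obtain ⟨v, h1, h2⟩ := cw_all ε 0 w (fun k => {c : Cn Ω md ε | ∃ d ∈ HC md ε, c ≤ d ∧
      ((FA d fun G => e k ∈ y G) ∨ FA d fun G => ¬ e k ∈ y G)})
    (fun k c hc c' hc' => by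
      obtain ⟨d, h3, h4, h5⟩ := hc
      exact ⟨d, h3, hc'.trans h4, h5⟩)
    (fun k r _ => by
      obtain ⟨v, h3, h4⟩ := hy (e k) r
      obtain ⟨d, h5, h6, -⟩ := hc_dense v
      exact ⟨d, h5.trans h3, d, h6, le_rfl, h4.imp (fun h => h.mono h5) fun h => h.mono h5⟩)
  choose C hC hCD hCp using h2
  have hCD' : ∀ k c, ∃ d, c ∈ C k → d ∈ HC md ε ∧ c ≤ d ∧
      ((FA d fun G => e k ∈ y G) ∨ FA d fun G => ¬ e k ∈ y G) := fun k c => by
    by_cases hc : c ∈ C k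
    · obtain ⟨d, h3, h4, h5⟩ := hCD k hc
      exact ⟨d, fun _ => ⟨h3, h4, h5⟩⟩
    · exact ⟨c, fun h => absurd h hc⟩
  choose g hg using hCD'
  have hcap : ∀ k, ∀ w ≤ v, ∃ r ≤ w, ∃ c ∈ g k '' C k, r ≤ c := by
    intro k w hw
    obtain ⟨r, h3, c, h4, h5⟩ := hCp k w hw
    exact ⟨r, h3, g k c, ⟨c, h4, rfl⟩, h5.trans (hg k c h4).2.1⟩
  choose k hk using he
  refine ⟨v, h1.le, fun n => {c | c ∈ g (k n) '' C (k n) ∧ FA c fun G => n ∈ y G}, fun n => ⟨?_, ?_⟩, ?_⟩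
  · exact ((hC (k n)).image _).mono fun c hc => hc.1
  · rintro c ⟨⟨c', h3, rfl⟩, -⟩
    exact (hg _ _ h3).1
  · refine (FA.all fun n => names_iff (Ψ := fun G => n ∈ y G) (g (k n) '' C (k n)) ?_ v (hcap (k n))).imp
      fun G _ hG => Set.ext fun n => hG n
    rintro c ⟨c', h3, rfl⟩
    have h4 := (hg (k n) c' h3).2.2
    rw [hk n] at h4
    exact h4

/-- for `ε` of uncountable cofinality the names live on `P_δ` for some `δ < ε` -/
theorem nmC_bd {ι : Type} [Countable ι] (hε : CofU ε) {a : ι → Set (Cn Ω md ε)} (ha : a ∈ NmC md ε ι) :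
    ∃ δ < ε, ∃ b ∈ NmC md δ ι, ∀ G, ev a G = ev b (rs δ G) := by
  obtain ⟨δ, h1, h2⟩ := exists_bd hε (⋃ n, a n) (Set.countable_iUnion fun n => (ha n).1)
  refine ⟨δ, h1, fun n => {d | ∃ c ∈ a n, d = tr δ c}, fun n => ⟨?_, ?_⟩, fun G => Set.ext fun n => ?_⟩
  · refine ((ha n).1.image (tr δ)).mono ?_
    rintro d ⟨c, h3, rfl⟩
    exact ⟨c, h3, rfl⟩
  · rintro d ⟨c, h3, rfl⟩
    exact tr_HC ((ha n).2 h3) δ
  · exact mt_bd h1.le (fun c hc => h2 c (Set.mem_iUnion.2 ⟨n, hc⟩)) G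

end Pool.Agent.Lib.MP_011f3a_lc.LM
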