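import Pool.Agent.Lib.MP_011f3a_lc.LM.E.Deep
import Pool.Agent.Lib.MP_011f3a_lc.LM.G.Dense
import Pool.Agent.Lib.MP_011f3a_lc.LM.K.Seq

/-! # Predense sets of bounded conditions (module G-BOUND)

For `ξ < τ` let `F ξ < τ` be such that for all `i` every `h ∈ HC md ξ` has an extension `d ≤ tr τ h` in `D i` with `Bd (F ξ) d` (`D i` is dense; supports are bounded by `Om2.cof`; at most `𝔠` many `h` and `i`: `Om2.sup`). Let `β > δ` be as in `Om2.clo`. Given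
`p : Cn Ω md τ`: `h₀ ≤ tr β p` in `HC md β` (`hc_dense`), `Bd ξ h₀` for some `ξ < β` (`CofU β`), `h = tr ξ h₀ ∈ HC md ξ`, `d` as above, `Bd β d`, `tr β d ≤ tr β (tr τ h) = h₀ ≤ tr β p`; join `tr β d` and `p`. -/

namespace Pool.Agent.Lib.MP_011f3a_lc.LM

open Cardinal

variable {Ω : Type} [LinearOrder Ω] [WellFoundedLT Ω] {md : Md} {ζ ξ η τ : Ω}

theorem exists_F (h : Om2 τ) {ι : Type} (hι : #ι ≤ 𝔠) (D : ι → Set (Cn Ω md τ)) (hD : ∀ i, Dns (D i))
    (ξ : Ω) (hξ : ξ < τ) : ∃ ε < τ, ∀ i, ∀ c ∈ HC md ξ, ∃ d ∈ D i, d ≤ tr τ c ∧ Bd ε d := by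
  have h1 : ∀ x : ι × HC md ξ, ∃ δ < τ, ∃ d ∈ D x.1, d ≤ tr τ x.2.1 ∧ ∀ η ∈ d.supp, η < δ := by
    rintro ⟨i, c⟩
    obtain ⟨d, h2, h3⟩ := hD i (tr τ c.1)
    obtain ⟨δ, h4, h5⟩ := Om2.cof h d.supp d.supp_countable d.supp_lt
    exact ⟨δ, h4, d, h3, h2, h5⟩
  choose f hf g hg using h1
  have h2 : #(ι × HC md ξ) ≤ 𝔠 := by
    rw [mk_prod, lift_uzero, lift_uzero]
    refine (mul_le_mul' hι (card_HC h hξ)).trans ?_
    rw [mul_eq_self (aleph0_le_continuum)]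
  obtain ⟨ε, h3, h4⟩ := h.sup _ f h2 hf
  refine ⟨ε, h3, fun i c hc => ?_⟩
  have h5 := hg (i, ⟨c, hc⟩)
  exact ⟨g (i, ⟨c, hc⟩), h5.1, h5.2.1, bd_iff.2 fun η hη => (h5.2.2 η hη).trans (h4 _)⟩

theorem bound (h : Om2 τ) {ι : Type} (hι : #ι ≤ 𝔠) (D : ι → Set (Cn Ω md τ)) (hD : ∀ i, Dns (D i)) (δ : Ω)
    (hδ : δ < τ) : ∃ β < τ, δ < β ∧ CofU β ∧ ∀ i, ∀ p : Cn Ω md τ, ∃ r ≤ p, ∃ d ∈ D i, Bd β d ∧ r ≤ d := by
  have h1 : ∀ ξ, ∃ ε, (ξ < τ → ε < τ) ∧ (ξ < τ → ∀ i, ∀ c ∈ HC md ξ, ∃ d ∈ D i, d ≤ tr τ c ∧ Bd ε d) := by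
    intro ξ
    by_cases hξ : ξ < τ
    · obtain ⟨ε, h2, h3⟩ := exists_F h hι D hD ξ hξ
      exact ⟨ε, fun _ => h2, fun _ => h3⟩
    · exact ⟨ξ, fun h => absurd h hξ, fun h => absurd h hξ⟩
  choose F hF hF' using h1
  obtain ⟨β, h2, h3, h4, h5⟩ := h.clo F hF δ hδ
  refine ⟨β, h2, h3, h4, fun i p => ?_⟩
  obtain ⟨h₀, h6, h7, -⟩ := hc_dense (tr β p)
  obtain ⟨ξ, h8, h9⟩ := exists_bd h4 {h₀} (Set.countable_singleton h₀)
  have h10 : tr β (tr ξ h₀) = h₀ := h9 h₀ rfl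
  obtain ⟨d, h11, h12, h13⟩ := hF' ξ (h8.trans h2) i (tr ξ h₀) (tr_HC h7 ξ)
  have h14 : Bd β d := h13.mono (h5 ξ h8).le
  have h15 : tr β d ≤ tr β p := by
    refine (tr_mono h12 β).trans ?_
    rw [tr_tr _ h2.le, h10]
    exact h6
  obtain ⟨r, h16, -, h17, -⟩ := exists_join h2.le p (tr β d) h15
  refine ⟨r, h17, d, h11, h14, ?_⟩
  rw [← (show tr τ (tr β d) = d from h14), le_tr_iff h2.le, h16]

end Pool.Agent.Lib.MP_011f3a_lc.LM

/-! # A real which is different from `𝔠` given ones (module G-NEW)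

`real_bound`: `bound` for the sets `D (i, n)` of the conditions deciding `n ∈ z i` (`Dns`): every `z i` is given by the name `z' i G' = {n | ∃ d, (FA d (n ∈ z i)) ∧ Bd β d ∧ tr β d ∈ G'}` on `P_β`. `exists_new`: `y G = {Encodable.encode s | s ∈ gb β G}` and `gb_new`. -/

namespace Pool.Agent.Lib.MP_011f3a_lc.LM

open Cardinal

variable {Ω : Type} [LinearOrder Ω] [WellFoundedLT Ω] {md : Md} {ζ ξ η τ : Ω}

/-- decidable names of reals -/
def BR {P : Type} [Preorder P] (x : Flt P → Set ℕ) : Prop := ∀ n, BPr fun G => n ∈ x G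

private theorem new_iff {ε : Ω} (hε : ε ≤ τ) {Ψ : Flt (Cn Ω md τ) → Prop} (C : Set (Cn Ω md τ))
    (hC : ∀ c ∈ C, Bd ε c ∧ (FA c Ψ ∨ FA c fun G => ¬ Ψ G)) (q : Cn Ω md τ)
    (hp : ∀ w ≤ q, ∃ r ≤ w, ∃ c ∈ C, r ≤ c) :
    FA q fun G => Ψ G ↔ mt {e | ∃ c ∈ C, FA c Ψ ∧ e = tr ε c} (rs ε G) := by
  refine FA_local fun w hw => ?_
  obtain ⟨r, h1, c, h2, h3⟩ := hp w hw
  refine ⟨r, h1, ?_⟩
  rcases (hC c h2).2 with h4 | h4
  · refine (h4.mono h3).imp fun G hG h5 => ⟨fun _ => ?_, fun _ => h5⟩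
    exact ⟨tr ε c, ⟨c, h2, h4, rfl⟩, tr_mem_rs (G.up r hG c h3) ε⟩
  · refine (h4.mono h3).imp fun G hG h5 => ⟨fun h => absurd h h5, fun h => ?_⟩
    obtain ⟨e, ⟨c', h6, h7, rfl⟩, h8⟩ := h
    rw [mem_rs hε, (show tr τ (tr ε c') = c' from (hC c' h6).1)] at h8
    obtain ⟨u, -, h9, h10⟩ := G.dir c' h8 r hG
    exact absurd ((h7.mono h9).imp₂ (h4.mono (h10.trans h3)) fun _ _ h h' => h' h) FA.not_false

theorem real_bound (h : Om2 τ) {ι : Type} (hι : #ι ≤ 𝔠) (z : ι → Flt (Cn Ω md τ) → Set ℕ) (hz : ∀ i, BR (z i)) :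
    ∃ β < τ, ∃ z' : ι → Flt (Cn Ω md β) → Set ℕ, (∀ i, BR (z' i)) ∧ ∀ i, ∀ p : Cn Ω md τ, FA p fun G => z i G = z' i (rs β G) := by
  obtain ⟨δ, hδ⟩ := h.ne
  have h2 : #(ι × ℕ) ≤ 𝔠 := by
    rw [mk_prod, lift_uzero, lift_uzero]
    refine (mul_le_mul' hι ((mk_nat.le).trans (aleph0_le_continuum))).trans ?_
    rw [mul_eq_self (aleph0_le_continuum)]
  obtain ⟨β, h3, -, -, h4⟩ := bound h h2 (fun x : ι × ℕ => {c : Cn Ω md τ |
      (FA c fun G => x.2 ∈ z x.1 G) ∨ FA c fun G => ¬ x.2 ∈ z x.1 G}) (fun x p => by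
    obtain ⟨v, h5, h6⟩ := hz x.1 x.2 p
    exact ⟨v, h5, h6⟩) δ hδ
  refine ⟨β, h3, fun i G' => {n | mt {e | ∃ c ∈ {c : Cn Ω md τ | Bd β c ∧
    ((FA c fun G => n ∈ z i G) ∨ FA c fun G => ¬ n ∈ z i G)}, (FA c fun G => n ∈ z i G) ∧ e = tr β c} G'},
    fun i n => BPr.mt _, fun i p => ?_⟩
  refine (FA.all fun n => new_iff h3.le {c : Cn Ω md τ | Bd β c ∧
    ((FA c fun G => n ∈ z i G) ∨ FA c fun G => ¬ n ∈ z i G)} (fun c hc => hc) p fun w _ => ?_).imp
    fun G _ hG => Set.ext fun n => hG n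
  obtain ⟨r, h5, d, h6, h7, h8⟩ := h4 (i, n) w
  exact ⟨r, h5, d, ⟨h7, h6⟩, h8⟩

theorem exists_new (h : Om2 τ) {ι : Type} (hι : #ι ≤ 𝔠) (z : ι → Flt (Cn Ω md τ) → Set ℕ) (hz : ∀ i, BR (z i)) :
    ∃ y : Flt (Cn Ω md τ) → Set ℕ, BR y ∧ ∀ i, ∀ p : Cn Ω md τ, FA p fun G => y G ≠ z i G := by
  obtain ⟨β, h1, z', h2, h3⟩ := real_bound h hι z hz
  refine ⟨fun G => {n | ∃ s : List ℕ, Encodable.encode s = n ∧ s ∈ gb β G}, fun n => ?_, fun i p => ?_⟩
  · exact BPr.exists fun s => BPr.and (BPr.const _) (bpr_gb s)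
  · have h4 : BT fun G : Flt (Cn Ω md β) => {s : List ℕ | Encodable.encode s ∈ z' i G} := fun s => h2 i _
    refine (h3 i p).imp₂ (gb_new h1 p h4) fun G _ h5 h6 h7 => h6 ?_
    ext s
    show s ∈ gb β G ↔ Encodable.encode s ∈ z' i (rs β G)
    rw [← h5, ← h7]
    constructor
    · intro hs
      exact ⟨s, rfl, hs⟩
    · rintro ⟨s', h8, h9⟩
      rwa [← Encodable.encode_injective h8]

/-- below a condition a real depends only on `G ∩ P_ε` for some `ε < τ` (only `cw_all` and supports) -/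
theorem exists_bd_real (h : Om2 τ) (p : Cn Ω md τ) {y : Flt (Cn Ω md τ) → Set ℕ} (hy : BR y) :
    ∃ q ≤ p, ∃ ε < τ, Bd ε q ∧ ∃ y' : Flt (Cn Ω md ε) → Set ℕ, BR y' ∧ FA q fun G => y G = y' (rs ε G) := by
  obtain ⟨q, h1, h2⟩ := cw_all τ 0 p (fun n => {c : Cn Ω md τ | (FA c fun G => n ∈ y G) ∨ FA c fun G => ¬ n ∈ y G})
    (fun n c hc d hd => hc.imp (fun h => h.mono hd) fun h => h.mono hd) (fun n r _ => hy n r)
  choose C hC hCD hCp using h2
  obtain ⟨ε, h3, h4⟩ := exists_bd h.cof ({q} ∪ ⋃ n, C n) ((Set.countable_singleton q).union (Set.countable_iUnion hC))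
  refine ⟨q, h1.le, ε, h3, h4 q (Or.inl rfl), fun G' => {n | mt {e | ∃ c ∈ C n, (FA c fun G => n ∈ y G) ∧ e = tr ε c} G'},
    fun n => BPr.mt _, ?_⟩
  exact (FA.all fun n => new_iff h3.le (C n) (fun c hc => ⟨h4 c (Or.inr (Set.mem_iUnion.2 ⟨n, hc⟩)), hCD n hc⟩) q
    (hCp n)).imp fun G _ hG => Set.ext fun n => hG n

end Pool.Agent.Lib.MP_011f3a_lc.LM

/-!
# Points of the Cantor space in the Boolean-valued model (module E-REAL)

`rn x G` is the set of natural numbers given by an element `x` of the Boolean-valued model, `rb y` the element given by a function of the filter.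
(`std_omega`, `Std.iInf`, `BSet.beq_ext`, `basic_bmem_mk`.)
-/

namespace Pool.Agent.Lib.MP_011f3a_lc.LM

open Pool.Agent.Lib.MP_4d8715_gt.KR BSet

variable {P : Type} [Preorder P] {c c' : P}

/-- the real given by `x` -/
def rn (x : BSet (RO P)) (G : Flt P) : Set ℕ := {n | mtv (bmem (nat n) x) G}

/-- the point given by a real -/
noncomputable def rb (y : Flt P → Set ℕ) : BSet (RO P) := mk (ULift ℕ) (fun n => nat n.down) fun n => vle fun G => n.down ∈ y G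

theorem br_rn (x : BSet (RO P)) : BR (rn x) := fun _ => bpr_mtv _

theorem bmem_rb (y : Flt P → Set ℕ) (n : ℕ) : bmem (nat n) (rb y) = vle fun G => n ∈ y G := by
  unfold rb
  rw [basic_bmem_mk]
  refine le_antisymm (iSup_le fun j => ?_) (le_iSup_of_le (ULift.up n) (le_inf le_rfl ?_))
  · rw [n_beq_nat]
    by_cases h : n = j.down
    · rw [← h]
      exact inf_le_left
    · have h1 : tv (RO P) (n = j.down) = ⊥ := by
        unfold tv
        simp [h]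
      rw [h1, inf_bot_eq]
      exact bot_le
  · show _ ≤ beq (nat n) (nat n)
    rw [beq_refl]
    exact le_top

theorem sub_rb (y : Flt P → Set ℕ) : bsub (rb y) omega = ⊤ := by
  unfold bsub
  rw [iInf_mem (rb y) (fun z => bmem z omega) (ext_bmem_left omega)]
  refine iInf_eq_top.2 fun i => ?_
  show _ ⇨ bmem (nat i.down) omega = ⊤
  rw [bmem_nat_omega, himp_top]

theorem rn_rb {y : Flt P → Set ℕ} (hy : BR y) (c : P) : FA c fun G => rn (rb y) G = y G := by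
  have h1 : FA c fun G => ∀ n : ℕ, (n ∈ rn (rb y) G ↔ n ∈ y G) := by
    refine FA.all fun n => ?_
    have h2 := mtv_vle (hy n) c
    rw [← bmem_rb y n] at h2
    exact h2
  exact h1.imp fun G _ h2 => Set.ext h2

private theorem Real_iff {x y : BSet (RO P)} (z : BSet (RO P)) :
    Fo c (iffB (bmem z x) (bmem z y)) ↔
      FA c fun G => (mtv (bmem z x) G ↔ mtv (bmem z y) G) := by
  rw [← fo_vle, vle_iff (bpr_mtv _) (bpr_mtv _), vle_mtv, vle_mtv]

private theorem Real_mem_omega {a : BSet (RO P)} (h : Fo c (bmem a omega)) :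
    ∃ c' ≤ c, ∃ n : ℕ, Fo c' (beq a (nat n)) := by
  rw [std_omega.mem, fo_iSup] at h
  exact h c le_rfl

private theorem Real_sub {x y : BSet (RO P)} (hx : Fo c (bsub x omega))
    (h : ∀ n : ℕ, Fo c (iffB (bmem (nat n) x) (bmem (nat n) y))) (z : BSet (RO P)) :
    Fo c (bmem z x ⇨ bmem z y) := by
  rw [fo_himp]
  intro c1 hc1 hz
  refine fo_reg fun c2 hc2 => ?_
  have h1 : Fo c2 (bmem z omega) := by
    unfold bsub at hx
    rw [fo_iInf] at hx
    exact ((fo_himp.1 (hx z)) c1 hc1 hz).mono hc2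
  obtain ⟨c3, hc3, n, hn⟩ := Real_mem_omega h1
  refine ⟨c3, hc3, ?_⟩
  have h2 : Fo c3 (bmem (nat n) x) := fo_ext (ext_bmem_left x) hn (hz.mono (hc3.trans hc2))
  have h3 : Fo c3 (bmem (nat n) y) :=
    ((fo_iffB.1 (h n)) c3 (hc3.trans (hc2.trans hc1))).1 h2
  exact fo_ext (ext_bmem_left y) (fo_beq_symm hn) h3

theorem fo_beq_iff {x y : BSet (RO P)} (hx : Fo c (bsub x omega)) (hy : Fo c (bsub y omega)) :
    Fo c (beq x y) ↔ FA c fun G => rn x G = rn y G := by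
  have h0 : (∀ n : ℕ, Fo c (iffB (bmem (nat n) x) (bmem (nat n) y))) ↔
      FA c fun G => rn x G = rn y G := by
    constructor
    · intro h
      have h1 : FA c fun G => ∀ n : ℕ, (mtv (bmem (nat n) x) G ↔ mtv (bmem (nat n) y) G) :=
        FA.all fun n => (Real_iff (nat n)).1 (h n)
      exact h1.imp fun G _ h2 => Set.ext h2
    · intro h n
      refine (Real_iff (nat n)).2 (h.imp fun G _ h2 => ?_)
      exact Set.ext_iff.1 h2 n
  rw [← h0]
  constructor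
  · intro h n
    rw [BSet.beq_ext, fo_iInf] at h
    exact h (nat n)
  · intro h
    rw [BSet.beq_ext, fo_iInf]
    intro z
    rw [fo_inf]
    refine ⟨Real_sub hx h z, Real_sub hy (fun n => ?_) z⟩
    have h1 := h n
    rw [fo_iffB] at h1 ⊢
    exact fun c' hc' => (h1 c' hc').symm

theorem fo_beq_rb {x : BSet (RO P)} (hx : Fo c (bsub x omega)) : Fo c (beq x (rb (rn x))) := by
  refine (fo_beq_iff hx ?_).2 ((rn_rb (br_rn x) c).imp fun G _ h => h.symm)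
  rw [sub_rb]
  exact fo_top

/-- agreement below a natural number -/
theorem fo_agree_iff {x y : BSet (RO P)} (n : ℕ) :
    Fo c (Lb.Agree (nat n) x y) ↔ FA c fun G => ∀ k < n, (k ∈ rn x G ↔ k ∈ rn y G) := by
  unfold Lb.Agree
  rw [(std_nat n).iInf (Ext.iffB (ext_bmem_left x) (ext_bmem_left y)), fo_iInf]
  constructor
  · intro h
    have h1 : FA c fun G => ∀ k : Fin n,
        (mtv (bmem (nat k) x) G ↔ mtv (bmem (nat k) y) G) :=
      FA.all fun k => (Real_iff (nat k)).1 (h k)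
    exact h1.imp fun G _ h2 k hk => h2 ⟨k, hk⟩
  · intro h k
    exact (Real_iff (nat k)).2 (h.imp fun G _ h2 => h2 k k.2)

/-- elements of `omega` -/
theorem fo_mem_omega {a : BSet (RO P)} (h : Fo c (bmem a omega)) : ∃ c' ≤ c, ∃ n : ℕ, Fo c' (beq a (nat n)) :=
  Real_mem_omega h

end Pool.Agent.Lib.MP_011f3a_lc.LM

/-!
# The continuous function (module E-ONTO)

`main_density` for `InX X` gives `q`, `C`. `psi C x y` is the value of `Ph (C G) (rn x G) (rn y G)`. Single-valued on points: `ph_unique`, `fo_beq_iff`. Onto `Y`: for `b ∈ Y` apply `main_density` with `y = rn b`; `x` is `rb x`, `rn_rb`. Continuity: let `Fo c (App f x y)` and `n` be `nat k` below `c` (`fo_mem_omega`); decide a pair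
`z ∈ C` with `Ini z.1 (rn x G)` and `k ≤ z.2.length` (second part of `Ph`); `m = nat z.1.length`.
-/

namespace Pool.Agent.Lib.MP_011f3a_lc.LM

open Pool.Agent.Lib.MP_4d8715_gt.KR BSet Cardinal

variable {P : Type} [Preorder P] {c : P} {X Y : BSet (RO P)} {C : Flt P → Set (List Bool × List Bool)}

/-- the value of `Φ(x) = y` -/
noncomputable def psi (C : Flt P → Set (List Bool × List Bool)) (x y : BSet (RO P)) : RO P := vle fun G => Ph (C G) (rn x G) (rn y G)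

private theorem onto_rn {x x' : BSet (RO P)} (h : Fo c (beq x x')) (G : Flt P) (hG : c ∈ G.car) : rn x G = rn x' G := by
  have h1 : ∀ {z z' : BSet (RO P)}, Fo c (beq z z') → rn z G ⊆ rn z' G := by
    rintro z z' h2 n ⟨d, hd, hdG⟩
    obtain ⟨e, he, hec, hed⟩ := G.dir c hG d hdG
    have h3 : Ext fun w : BSet (RO P) => bmem (nat n) w := fun w w' => bmem_congr_right _ _ _
    exact ⟨e, fo_ext h3 (h2.mono hec) (Fo.mono (c := d) hd hed), he⟩
  exact Set.Subset.antisymm (h1 h) (h1 (fo_beq_symm h))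

theorem ext_psi_left (C : Flt P → Set (List Bool × List Bool)) (y : BSet (RO P)) : Ext fun x => psi C x y := by
  intro x x'
  refine le_iff_fo.2 fun c hc => ?_
  obtain ⟨h1, h2⟩ := fo_inf.1 hc
  refine fo_vle.2 ((fo_vle.1 h2).imp fun G hG h3 => ?_)
  rw [← onto_rn h1 G hG]
  exact h3

theorem ext_psi_right (C : Flt P → Set (List Bool × List Bool)) (x : BSet (RO P)) : Ext fun y => psi C x y := by
  intro y y'
  refine le_iff_fo.2 fun c hc => ?_
  obtain ⟨h1, h2⟩ := fo_inf.1 hc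
  refine fo_vle.2 ((fo_vle.1 h2).imp fun G hG h3 => ?_)
  rw [← onto_rn h1 G hG]
  exact h3

private theorem onto_bpr_ini (σ : List Bool) (x : BSet (RO P)) : BPr fun G => Ini σ (rn x G) := by
  have h0 : BPr fun G => ∀ i : Fin σ.length, σ[i] = true ↔ (i : ℕ) ∈ rn x G := by
    refine BPr.all fun i => ?_
    have h1 : BPr fun G => (i : ℕ) ∈ rn x G := br_rn x i
    refine (((BPr.const (σ[i] = true)).imp h1).and (h1.imp (BPr.const (σ[i] = true)))).congr fun G => ?_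
    exact ⟨fun h2 => ⟨h2.1, h2.2⟩, fun h2 => ⟨h2.1, h2.2⟩⟩
  exact h0.congr fun G => ⟨fun h2 i hi => h2 ⟨i, hi⟩, fun h2 i => h2 i i.2⟩

theorem fo_Cont (hC : ∀ z, BPr fun G => z ∈ C G) : Fo c (Lb.Cont omega (relG X Y (psi C))) := by
  unfold Lb.Cont
  refine fo_iInf.2 fun x => fo_iInf.2 fun y => fo_iInf.2 fun n => fo_himp.2 fun c₁ hc₁ hxy => fo_himp.2 fun c₂ hc₂ hn =>
    fo_iSup.2 fun d hd => ?_
  rw [App_relG X Y (ext_psi_left C) (ext_psi_right C)] at hxy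
  have h1 : FA c₁ fun G => Ph (C G) (rn x G) (rn y G) := fo_vle.1 (fo_inf.1 (fo_inf.1 hxy).2).2
  obtain ⟨d₁, hd₁, k, hk⟩ := fo_mem_omega (hn.mono hd)
  have h2 : FA d₁ fun G => Ph (C G) (rn x G) (rn y G) := h1.mono (hd₁.trans (hd.trans hc₂))
  obtain ⟨d₂, hd₂, z, hz⟩ := FA.exists_of_BPr (w := d₁)
    (Ψ := fun (z : List Bool × List Bool) G => z ∈ C G ∧ Ini z.1 (rn x G) ∧ k ≤ z.2.length)
    (fun z => (hC z).and ((onto_bpr_ini z.1 x).and (BPr.const _)))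
    (h2.imp fun G _ h3 => h3.2 k)
  refine ⟨d₂, hd₂.trans hd₁, nat z.1.length, fo_inf.2 ⟨?_, ?_⟩⟩
  · rw [bmem_nat_omega]
    exact fo_top
  · refine fo_iInf.2 fun x' => fo_iInf.2 fun y' => fo_himp.2 fun d₃ hd₃ hxy' => fo_himp.2 fun d₄ hd₄ hag => ?_
    rw [App_relG X Y (ext_psi_left C) (ext_psi_right C)] at hxy'
    have h3 : FA d₃ fun G => Ph (C G) (rn x' G) (rn y' G) := fo_vle.1 (fo_inf.1 (fo_inf.1 hxy').2).2
    refine fo_ext (Lb.ext_Agree_n y y') (fo_beq_symm (hk.mono (hd₄.trans (hd₃.trans hd₂)))) ?_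
    refine (fo_agree_iff k).2 ?_
    have h4 := (fo_agree_iff z.1.length).1 hag
    refine ((h2.mono (hd₄.trans (hd₃.trans hd₂))).and (h3.mono hd₄)).imp₂ ((hz.mono (hd₄.trans hd₃)).and h4)
      fun G _ h5 h6 j hj => ?_
    obtain ⟨h7, h8⟩ := h5
    obtain ⟨⟨h9, h10, h11⟩, h12⟩ := h6
    have h13 : Ini z.1 (rn x' G) := fun i hi => (h10 i hi).trans (h12 i hi)
    have h14 := h7.1 z h9 h10
    have h15 := h8.1 z h9 h13
    have hjz : j < z.2.length := lt_of_lt_of_le hj h11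
    exact (h14 j hjz).symm.trans (h15 j hjz)

end Pool.Agent.Lib.MP_011f3a_lc.LM

/-!
# Cardinality of the continuum (module E-CARDC)

`b x n` is the value of: `n` belongs to the point assigned to `x`. `cardC_of`: the function `relG Z (power omega) ψ` with `ψ x z = ⨅ n, iffB (bmem (nat n) z) (b x n)` has domain `Z` (for `x` take `z = rb …` with `bmem (nat n) z = b x n`; two such `z` are equal: `fo_beq_iff`), and takes all points as
values. `of_cardC`: `b x n = ⨆ v, App g x v ⊓ bmem (nat n) v` for the function `g` of `CardC` (`exists_fo`).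
-/

namespace Pool.Agent.Lib.MP_011f3a_lc.LM

open Pool.Agent.Lib.MP_4d8715_gt.KR BSet

variable {P : Type} [Preorder P] {c : P} {Z Y f : BSet (RO P)}

/-- every real is assigned to some element of `Z` by `b` -/
def Asg (c : P) (Z : BSet (RO P)) (b : BSet (RO P) → ℕ → RO P) : Prop :=
  ∀ y : Flt P → Set ℕ, BR y → ∀ c' ≤ c, ∃ c'' ≤ c', ∃ x, Fo c'' (bmem x Z) ∧ ∀ n, Fo c'' (iffB (b x n) (vle fun G => n ∈ y G))

private theorem cc_iff_trans {a b d : RO P} (h : Fo c (iffB a b)) (h' : Fo c (iffB b d)) : Fo c (iffB a d) := by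
  rw [fo_iffB] at h h' ⊢
  intro c' hc'
  exact (h c' hc').trans (h' c' hc')

private theorem cc_iff_symm {a b : RO P} (h : Fo c (iffB a b)) : Fo c (iffB b a) := by
  rw [fo_iffB] at h ⊢
  intro c' hc'
  exact (h c' hc').symm

/-- the value of a function at a point where it is known -/
private theorem cc_fun_iff {g x v : BSet (RO P)} {φ : BSet (RO P) → RO P} (hφ : Ext φ) (hg : Fo c (Kb.FunOn g Z))
    (hx : Fo c (bmem x Z)) (hv : Fo c (Kb.App g x v)) : Fo c (iffB (⨆ u, Kb.App g x u ⊓ φ u) (φ v)) := by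
  rw [fo_iffB]
  intro e he
  constructor
  · intro h
    refine fo_reg fun e1 he1 => ?_
    rw [fo_iSup] at h
    obtain ⟨e2, he2, u, hu⟩ := h e1 he1
    rw [fo_inf] at hu
    obtain ⟨hu1, hu2⟩ := hu
    have hec : e2 ≤ c := he2.trans (he1.trans he)
    have h1 : Fo e2 (⨆ b, ⨅ d, iffB (Kb.App g x d) (beq d b)) := by
      have h2 := (fo_inf.1 hg).2
      rw [fo_iInf] at h2
      have h3 := h2 x
      rw [fo_himp] at h3
      exact h3 e2 hec (hx.mono hec)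
    rw [fo_iSup] at h1
    obtain ⟨e3, he3, b, hb⟩ := h1 e2 le_rfl
    rw [fo_iInf] at hb
    have h4 : Fo e3 (beq u b) := ((fo_iffB.1 (hb u)) e3 le_rfl).1 (hu1.mono he3)
    have h5 : Fo e3 (beq v b) := ((fo_iffB.1 (hb v)) e3 le_rfl).1 (hv.mono (he3.trans hec))
    exact ⟨e3, he3.trans he2, fo_ext hφ (fo_beq_trans h4 (fo_beq_symm h5)) (hu2.mono he3)⟩
  · intro h
    exact Fo.of_le (fo_inf.2 ⟨hv.mono he, h⟩) (le_iSup (fun u => Kb.App g x u ⊓ φ u) v)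

private theorem cc_mem_power {x : BSet (RO P)} : bmem x (power (omega : BSet (RO P))) = bsub x omega := by
  rw [bmem_power]
  rfl

private theorem cc_rn (x : BSet (RO P)) (n : ℕ) : vle (fun G => n ∈ rn x G) = bmem (nat n) x :=
  vle_mtv _

private theorem cc_ext_psi1 {b : BSet (RO P) → ℕ → RO P} (hb : ∀ n, Ext fun x => b x n) (z : BSet (RO P)) :
    Ext fun x => ⨅ n, iffB (bmem (nat n) z) (b x n) :=
  Ext.iInf fun n => Ext.iffB (ext_const _) (hb n)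

private theorem cc_ext_psi2 {b : BSet (RO P) → ℕ → RO P} (x : BSet (RO P)) :
    Ext fun z => ⨅ n, iffB (bmem (nat n) z) (b x n) :=
  Ext.iInf fun _ => Ext.iffB (ext_bmem_right _) (ext_const _)

theorem cardC_of (b : BSet (RO P) → ℕ → RO P) (hb : ∀ n, Ext fun x => b x n) (h : Asg c Z b) : Fo c (Lb.CardC omega Z) := by
  have h1 := cc_ext_psi1 hb
  have h2 := cc_ext_psi2 (b := b)
  have hfun := fo_FunTo_relG (c := c) (X := Z) (Y := power (omega : BSet (RO P)))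
    (ψ := fun x z => ⨅ n, iffB (bmem (nat n) z) (b x n)) h1 h2 (by
      intro c' _ x z z' _ hz hz' hψ hψ'
      rw [cc_mem_power] at hz hz'
      rw [fo_beq_iff hz hz']
      have hn : ∀ n, FA c' fun G => (n ∈ rn z G ↔ n ∈ rn z' G) := by
        intro n
        have h3 := cc_iff_trans (fo_iInf.1 hψ n) (cc_iff_symm (fo_iInf.1 hψ' n))
        rw [← cc_rn z n, ← cc_rn z' n, ← vle_iff (br_rn z n) (br_rn z' n), fo_vle] at h3
        exact h3
      exact (FA.all hn).imp fun G _ h4 => Set.ext h4)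
  have hdom : Fo c (beq (domG Z (power (omega : BSet (RO P))) fun x z => ⨅ n, iffB (bmem (nat n) z) (b x n)) Z) := by
    rw [BSet.beq_ext, fo_iInf]
    intro x
    rw [fo_inf, fo_himp, fo_himp, bmem_domG Z _ h1]
    constructor
    · intro c' _ h3
      exact (fo_inf.1 h3).1
    · intro c' _ h3
      rw [fo_inf]
      refine ⟨h3, ?_⟩
      refine Fo.of_le (fo_inf.2 ⟨?_, ?_⟩) (le_iSup (fun z => bmem z (power (omega : BSet (RO P))) ⊓
        ⨅ n, iffB (bmem (nat n) z) (b x n)) (rb fun G => {n | mtv (b x n) G}))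
      · rw [cc_mem_power, sub_rb]
        exact fo_top
      · rw [fo_iInf]
        intro n
        rw [bmem_rb, fo_iffB]
        intro e _
        have h4 : vle (fun G => n ∈ ({n | mtv (b x n) G} : Set ℕ)) = b x n := vle_mtv _
        rw [h4]
  have hon : Fo c (Kb.FunOn (relG Z (power (omega : BSet (RO P))) fun x z => ⨅ n, iffB (bmem (nat n) z) (b x n)) Z) :=
    fo_ext (Kb.ext_FunOn_d _) hdom (fo_inf.1 hfun).1
  refine Fo.of_le (fo_inf.2 ⟨hon, ?_⟩) (le_iSup (fun g => Kb.FunOn g Z ⊓ (⨅ y, Kb.Sub y omega ⇨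
    (⨆ x, bmem x Z ⊓ Kb.App g x y))) (relG Z (power (omega : BSet (RO P))) fun x z => ⨅ n, iffB (bmem (nat n) z) (b x n)))
  rw [fo_iInf]
  intro y
  rw [fo_himp]
  intro c' hc' hy
  rw [fo_iSup]
  intro c1 hc1
  obtain ⟨c2, hc2, x, hx, hxn⟩ := h (rn y) (br_rn y) c1 (hc1.trans hc')
  refine ⟨c2, hc2, x, ?_⟩
  rw [fo_inf, App_relG Z _ h1 h2, fo_inf, fo_inf, cc_mem_power]
  refine ⟨hx, hx, hy.mono (hc2.trans hc1), ?_⟩
  rw [fo_iInf]
  intro n
  have h3 := hxn n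
  rw [cc_rn y n] at h3
  exact cc_iff_symm h3

theorem of_cardC (h : Fo c (Lb.CardC omega Z)) : ∃ b : BSet (RO P) → ℕ → RO P, (∀ n, Ext fun x => b x n) ∧ Asg c Z b := by
  unfold Lb.CardC at h
  obtain ⟨g, hg⟩ := exists_fo ((Kb.ext_FunOn_f Z).inf (Ext.iInf fun y => (ext_const _).himp
    (Ext.iSup fun x => (ext_const _).inf (Kb.ext_App_f x y)))) h
  rw [fo_inf] at hg
  obtain ⟨hg1, hg2⟩ := hg
  refine ⟨fun x n => ⨆ v, Kb.App g x v ⊓ bmem (nat n) v, fun n => Ext.iSup fun v =>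
    (Kb.ext_App_a g v).inf (ext_const _), ?_⟩
  intro y _ c' hc'
  rw [fo_iInf] at hg2
  have h1 := hg2 (rb y)
  rw [fo_himp] at h1
  have h2 := h1 c' hc' (by
    rw [Kb.Sub_eq, sub_rb]
    exact fo_top)
  rw [fo_iSup] at h2
  obtain ⟨c2, hc2, x, hx⟩ := h2 c' le_rfl
  rw [fo_inf] at hx
  refine ⟨c2, hc2, x, hx.1, fun n => ?_⟩
  have h3 := cc_fun_iff (φ := fun v => bmem (nat n) v) (ext_bmem_right _) (hg1.mono (hc2.trans hc')) hx.1 hx.2
  rw [bmem_rb] at h3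
  exact h3

/-- the domain of a function onto a set of cardinality `𝔠` -/
theorem cardC_of_image (hf : Fo c (Kb.FunTo f Z Y)) (hi : Fo c (Lb.Image f Z Y)) (hY : Fo c (Lb.CardC omega Y)) :
    Fo c (Lb.CardC omega Z) := by
  obtain ⟨b, hb, hA⟩ := of_cardC hY
  refine cardC_of (fun x n => ⨆ v, Kb.App f x v ⊓ b v n) (fun n => Ext.iSup fun v =>
    (Kb.ext_App_a f v).inf (ext_const _)) ?_
  intro y hy c' hc'
  obtain ⟨c1, hc1, v, hv, hvn⟩ := hA y hy c' hc'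
  unfold Lb.Image at hi
  rw [fo_iInf] at hi
  have h1 : Fo c1 (⨆ x, bmem x Z ⊓ Kb.App f x v) := ((fo_iffB.1 (hi v)) c1 (hc1.trans hc')).1 hv
  rw [fo_iSup] at h1
  obtain ⟨c2, hc2, x, hx⟩ := h1 c1 le_rfl
  rw [fo_inf] at hx
  refine ⟨c2, hc2.trans hc1, x, hx.1, fun n => ?_⟩
  have h2 := cc_fun_iff (φ := fun v => b v n) (hb n) ((fo_inf.1 hf).1.mono (hc2.trans (hc1.trans hc'))) hx.1 hx.2
  exact cc_iff_trans h2 ((hvn n).mono hc2)

end Pool.Agent.Lib.MP_011f3a_lc.LM
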